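import Mathlib

/-!
# Mixing one unbounded biorthogonal pair with many bounded ones

A finite biorthogonal family all of whose members but one are bounded can be replaced by a bounded
biorthogonal family with the same span, provided it has enough members.
-/

set_option autoImplicit false

open Submodule Set

namespace Pool.Agent.R962.BA

/-- Index types of size `2 ^ p`. -/
def T : ℕ → Type
  | 0 => Unit
  | p + 1 => T p ⊕ T p

/-- The root of the index type. -/
def r : ∀ p : ℕ, T p
  | 0 => ()
  | p + 1 => Sum.inl (r p)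

instance instCountableT : ∀ p : ℕ, Countable (T p)
  | 0 => inferInstanceAs (Countable Unit)
  | p + 1 => by
    have := instCountableT p
    exact inferInstanceAs (Countable (T p ⊕ T p))

variable {𝕜 : Type} [RCLike 𝕜] {E : Type} [NormedAddCommGroup E] [NormedSpace 𝕜 E]

/-- Two families of vectors and functionals are biorthogonal. -/
def Bio {ι : Type} (y : ι → E) (h : ι → (E →L[𝕜] 𝕜)) : Prop :=
  (∀ i, h i (y i) = 1) ∧ ∀ i j, i ≠ j → h i (y j) = 0

theorem span_kill {ι κ : Type} (y : ι → E) (h : κ → (E →L[𝕜] 𝕜))
    (H : ∀ k i, h k (y i) = 0) (φ : E →L[𝕜] 𝕜) (hφ : φ ∈ span 𝕜 (range h)) (w : E)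
    (hw : w ∈ span 𝕜 (range y)) : φ w = 0 := by
  have h1 : ∀ k, h k w = 0 := by
    intro k
    induction hw using Submodule.span_induction with
    | mem x hx => obtain ⟨i, rfl⟩ := hx; exact H k i
    | zero => exact map_zero _
    | add a b _ _ ha hb => rw [map_add, ha, hb, add_zero]
    | smul c a _ ha => rw [map_smul, ha, smul_zero]
  induction hφ using Submodule.span_induction with
  | mem x hx => obtain ⟨i, rfl⟩ := hx; exact h1 i
  | zero => rfl
  | add a b _ _ ha hb => rw [add_apply, ha, hb, add_zero]
  | smul c a _ ha => rw [smul_apply, ha, smul_zero]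

theorem mix (p : ℕ) : ∀ (y : T p → E) (h : T p → (E →L[𝕜] 𝕜)), Bio y h → ∀ C : ℝ, 0 ≤ C →
    (∀ i, i ≠ r p → ‖y i‖ ≤ C ∧ ‖h i‖ ≤ C) →
    ‖y (r p)‖ ≤ (3 + Real.sqrt 2 ^ p) * C → ‖h (r p)‖ ≤ (3 + Real.sqrt 2 ^ p) * C →
    ∃ (u : T p → E) (v : T p → (E →L[𝕜] 𝕜)), Bio u v ∧
      (∀ j, ‖u j‖ ≤ 4 * C ∧ ‖v j‖ ≤ 4 * C) ∧ (∀ j, u j ∈ span 𝕜 (range y)) ∧
      (∀ j, v j ∈ span 𝕜 (range h)) ∧ (∀ i, y i ∈ span 𝕜 (range u)) := by
  induction p with
  | zero =>
    intro y h hb C hC _ h2 h3
    have e : (3 + Real.sqrt 2 ^ 0) * C = 4 * C := by ring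
    rw [e] at h2 h3
    refine ⟨y, h, hb, fun j => ?_, fun j => subset_span (mem_range_self j),
      fun j => subset_span (mem_range_self j), fun j => subset_span (mem_range_self j)⟩
    have : j = r 0 := rfl
    rw [this]
    exact ⟨h2, h3⟩
  | succ p ih =>
    classical
    intro y h hb C hC hC2 hy0 hh0
    set s : 𝕜 := (((Real.sqrt 2)⁻¹ : ℝ) : 𝕜) with hs
    have hs2 : s * s + s * s = 1 := by
      rw [hs, ← RCLike.ofReal_mul, ← RCLike.ofReal_add, ← RCLike.ofReal_one]
      congr 1
      have h2 : Real.sqrt 2 * Real.sqrt 2 = 2 := Real.mul_self_sqrt (by norm_num)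
      have h3 : Real.sqrt 2 ≠ 0 := by positivity
      field_simp
      nlinarith
    have hsn : ‖s‖ = (Real.sqrt 2)⁻¹ := by
      rw [hs, RCLike.norm_ofReal, abs_of_nonneg (by positivity)]
    have hL : Sum.inl (r p) = r (p + 1) := rfl
    let a : T (p + 1) := Sum.inl (r p)
    let b : T (p + 1) := Sum.inr (r p)
    have hab : a ≠ b := Sum.inl_ne_inr
    let y1 : T p → E := Function.update (fun i => y (Sum.inl i)) (r p) (s • (y a + y b))
    let y2 : T p → E := Function.update (fun i => y (Sum.inr i)) (r p) (s • (y a - y b))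
    let h1 : T p → (E →L[𝕜] 𝕜) :=
      Function.update (fun i => h (Sum.inl i)) (r p) (s • (h a + h b))
    let h2 : T p → (E →L[𝕜] 𝕜) :=
      Function.update (fun i => h (Sum.inr i)) (r p) (s • (h a - h b))
    have ey1 : y1 (r p) = s • (y a + y b) := Function.update_self ..
    have ey2 : y2 (r p) = s • (y a - y b) := Function.update_self ..
    have eh1 : h1 (r p) = s • (h a + h b) := Function.update_self ..
    have eh2 : h2 (r p) = s • (h a - h b) := Function.update_self ..
    have ny1 : ∀ i, i ≠ r p → y1 i = y (Sum.inl i) := fun i hi => Function.update_of_ne hi ..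
    have ny2 : ∀ i, i ≠ r p → y2 i = y (Sum.inr i) := fun i hi => Function.update_of_ne hi ..
    have nh1 : ∀ i, i ≠ r p → h1 i = h (Sum.inl i) := fun i hi => Function.update_of_ne hi ..
    have nh2 : ∀ i, i ≠ r p → h2 i = h (Sum.inr i) := fun i hi => Function.update_of_ne hi ..
    have haa : h a (y a) = 1 := hb.1 a
    have hbb : h b (y b) = 1 := hb.1 b
    have hAB : h a (y b) = 0 := hb.2 _ _ hab
    have hBA : h b (y a) = 0 := hb.2 _ _ hab.symm
    have neL : ∀ i, i ≠ r p → (Sum.inl i : T (p + 1)) ≠ a := by
      intro i hi h; exact hi (Sum.inl.inj h)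
    have neLb : ∀ i, (Sum.inl i : T (p + 1)) ≠ b := fun i => Sum.inl_ne_inr
    have neR : ∀ i, i ≠ r p → (Sum.inr i : T (p + 1)) ≠ b := by
      intro i hi h; exact hi (Sum.inr.inj h)
    have neRa : ∀ i, (Sum.inr i : T (p + 1)) ≠ a := fun i => Sum.inr_ne_inl
    have neLR : ∀ i j : T p, (Sum.inl i : T (p + 1)) ≠ Sum.inr j := fun i j => Sum.inl_ne_inr
    have B1 : Bio y1 h1 := by
      constructor
      · intro i
        by_cases hi : i = r p
        · rw [hi, ey1, eh1]
          simp only [smul_apply, add_apply, map_smul,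
            map_add, haa, hbb, hAB, hBA, smul_eq_mul]
          linear_combination hs2
        · rw [ny1 i hi, nh1 i hi]
          exact hb.1 _
      · intro i j hij
        by_cases hi : i = r p
        · have hj : j ≠ r p := fun h => hij (hi.trans h.symm)
          rw [hi, eh1, ny1 j hj, smul_apply, add_apply,
            hb.2 _ _ (neL j hj).symm, hb.2 _ _ (neLb j).symm, add_zero, smul_zero]
        · by_cases hj : j = r p
          · rw [hj, ey1, nh1 i hi, map_smul, map_add, hb.2 _ _ (neL i hi), hb.2 _ _ (neLb i),
              add_zero, smul_zero]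
          · rw [ny1 j hj, nh1 i hi]
            exact hb.2 _ _ (fun h => hij (Sum.inl.inj h))
    have B2 : Bio y2 h2 := by
      constructor
      · intro i
        by_cases hi : i = r p
        · rw [hi, ey2, eh2]
          simp only [smul_apply, sub_apply, map_smul,
            map_sub, haa, hbb, hAB, hBA, smul_eq_mul]
          linear_combination hs2
        · rw [ny2 i hi, nh2 i hi]
          exact hb.1 _
      · intro i j hij
        by_cases hi : i = r p
        · have hj : j ≠ r p := fun h => hij (hi.trans h.symm)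
          rw [hi, eh2, ny2 j hj, smul_apply, sub_apply,
            hb.2 _ _ (neR j hj).symm, hb.2 _ _ (neRa j).symm, sub_zero, smul_zero]
        · by_cases hj : j = r p
          · rw [hj, ey2, nh2 i hi, map_smul, map_sub, hb.2 _ _ (neR i hi), hb.2 _ _ (neRa i),
              sub_zero, smul_zero]
          · rw [ny2 j hj, nh2 i hi]
            exact hb.2 _ _ (fun h => hij (Sum.inr.inj h))
    have C12 : ∀ i j, h1 i (y2 j) = 0 := by
      intro i j
      by_cases hi : i = r p
      · rw [hi, eh1]
        by_cases hj : j = r p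
        · rw [hj, ey2]
          simp only [smul_apply, add_apply, map_smul,
            map_sub, haa, hbb, hAB, hBA, smul_eq_mul]
          ring
        · rw [ny2 j hj, smul_apply, add_apply,
            hb.2 _ _ (neR j hj).symm, hb.2 _ _ (neRa j).symm, add_zero, smul_zero]
      · rw [nh1 i hi]
        by_cases hj : j = r p
        · rw [hj, ey2, map_smul, map_sub, hb.2 _ _ (neL i hi), hb.2 _ _ (neLb i),
            sub_zero, smul_zero]
        · rw [ny2 j hj]
          exact hb.2 _ _ (neLR i j)
    have C21 : ∀ i j, h2 i (y1 j) = 0 := by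
      intro i j
      by_cases hi : i = r p
      · rw [hi, eh2]
        by_cases hj : j = r p
        · rw [hj, ey1]
          simp only [smul_apply, sub_apply, map_smul,
            map_add, haa, hbb, hAB, hBA, smul_eq_mul]
          ring
        · rw [ny1 j hj, smul_apply, sub_apply,
            hb.2 _ _ (neL j hj).symm, hb.2 _ _ (neLb j).symm, sub_zero, smul_zero]
      · rw [nh2 i hi]
        by_cases hj : j = r p
        · rw [hj, ey1, map_smul, map_add, hb.2 _ _ (neR i hi), hb.2 _ _ (neRa i),
            add_zero, smul_zero]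
        · rw [ny1 j hj]
          exact hb.2 _ _ (neLR j i).symm
    have hbn : ‖y b‖ ≤ C ∧ ‖h b‖ ≤ C := hC2 b hab.symm
    have key : ∀ t : ℝ, t ≤ (3 + Real.sqrt 2 ^ (p + 1)) * C →
        (Real.sqrt 2)⁻¹ * (t + C) ≤ (3 + Real.sqrt 2 ^ p) * C := by
      intro t ht
      have q1 : Real.sqrt 2 * Real.sqrt 2 = 2 := Real.mul_self_sqrt (by norm_num)
      have q0 : 0 < Real.sqrt 2 := by positivity
      have q2 : (4 : ℝ) ≤ Real.sqrt 2 * 3 := by
        have : (4 / 3 : ℝ) ≤ Real.sqrt 2 := by
          apply Real.le_sqrt_of_sq_le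
          norm_num
        linarith
      rw [inv_mul_le_iff₀ q0]
      have e : Real.sqrt 2 * ((3 + Real.sqrt 2 ^ p) * C)
          = (Real.sqrt 2 * 3 + Real.sqrt 2 ^ (p + 1)) * C := by rw [pow_succ]; ring
      rw [e]
      nlinarith [mul_le_mul_of_nonneg_right q2 hC]
    obtain ⟨u1, v1, b1, n1, s1, t1, w1⟩ := ih y1 h1 B1 C hC (by
        intro i hi
        rw [ny1 i hi, nh1 i hi]
        exact hC2 _ (neL i hi)) (by
        rw [ey1, norm_smul, hsn]
        refine le_trans ?_ (key _ hy0)
        apply mul_le_mul_of_nonneg_left _ (by positivity)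
        exact (norm_add_le _ _).trans (by
          have := hbn.1
          change ‖y (r (p + 1))‖ + _ ≤ _
          linarith)) (by
        rw [eh1, norm_smul, hsn]
        refine le_trans ?_ (key _ hh0)
        apply mul_le_mul_of_nonneg_left _ (by positivity)
        exact (norm_add_le _ _).trans (by
          have := hbn.2
          change ‖h (r (p + 1))‖ + _ ≤ _
          linarith))
    obtain ⟨u2, v2, b2, n2, s2, t2, w2⟩ := ih y2 h2 B2 C hC (by
        intro i hi
        rw [ny2 i hi, nh2 i hi]
        exact hC2 _ (neR i hi |> fun _ => neRa i)) (by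
        rw [ey2, norm_smul, hsn]
        refine le_trans ?_ (key _ hy0)
        apply mul_le_mul_of_nonneg_left _ (by positivity)
        exact (norm_sub_le _ _).trans (by
          have := hbn.1
          change ‖y (r (p + 1))‖ + _ ≤ _
          linarith)) (by
        rw [eh2, norm_smul, hsn]
        refine le_trans ?_ (key _ hh0)
        apply mul_le_mul_of_nonneg_left _ (by positivity)
        exact (norm_sub_le _ _).trans (by
          have := hbn.2
          change ‖h (r (p + 1))‖ + _ ≤ _
          linarith))
    have ys1 : span 𝕜 (range y1) ≤ span 𝕜 (range y) := by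
      rw [span_le]
      rintro _ ⟨i, rfl⟩
      by_cases hi : i = r p
      · rw [hi, ey1]
        exact smul_mem _ _ (add_mem (subset_span (mem_range_self _))
          (subset_span (mem_range_self _)))
      · rw [ny1 i hi]; exact subset_span (mem_range_self _)
    have ys2 : span 𝕜 (range y2) ≤ span 𝕜 (range y) := by
      rw [span_le]
      rintro _ ⟨i, rfl⟩
      by_cases hi : i = r p
      · rw [hi, ey2]
        exact smul_mem _ _ (sub_mem (subset_span (mem_range_self _))
          (subset_span (mem_range_self _)))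
      · rw [ny2 i hi]; exact subset_span (mem_range_self _)
    have hs1 : span 𝕜 (range h1) ≤ span 𝕜 (range h) := by
      rw [span_le]
      rintro _ ⟨i, rfl⟩
      by_cases hi : i = r p
      · rw [hi, eh1]
        exact smul_mem _ _ (add_mem (subset_span (mem_range_self _))
          (subset_span (mem_range_self _)))
      · rw [nh1 i hi]; exact subset_span (mem_range_self _)
    have hs2' : span 𝕜 (range h2) ≤ span 𝕜 (range h) := by
      rw [span_le]
      rintro _ ⟨i, rfl⟩
      by_cases hi : i = r p
      · rw [hi, eh2]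
        exact smul_mem _ _ (sub_mem (subset_span (mem_range_self _))
          (subset_span (mem_range_self _)))
      · rw [nh2 i hi]; exact subset_span (mem_range_self _)
    let u : T (p + 1) → E := Sum.elim u1 u2
    let v : T (p + 1) → (E →L[𝕜] 𝕜) := Sum.elim v1 v2
    have us1 : span 𝕜 (range u1) ≤ span 𝕜 (range u) := by
      apply span_mono
      rintro _ ⟨i, rfl⟩
      exact ⟨Sum.inl i, rfl⟩
    have us2 : span 𝕜 (range u2) ≤ span 𝕜 (range u) := by
      apply span_mono
      rintro _ ⟨i, rfl⟩
      exact ⟨Sum.inr i, rfl⟩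
    refine ⟨u, v, ⟨?_, ?_⟩, ?_, ?_, ?_, ?_⟩
    · rintro (i | i)
      · exact b1.1 i
      · exact b2.1 i
    · rintro (i | i) (j | j) hij
      · exact b1.2 i j (fun h => hij (by rw [h]))
      · exact span_kill y2 h1 C12 _ (t1 i) _ (s2 j)
      · exact span_kill y1 h2 C21 _ (t2 i) _ (s1 j)
      · exact b2.2 i j (fun h => hij (by rw [h]))
    · rintro (i | i)
      · exact n1 i
      · exact n2 i
    · rintro (i | i)
      · exact ys1 (s1 i)
      · exact ys2 (s2 i)
    · rintro (i | i)
      · exact hs1 (t1 i)
      · exact hs2' (t2 i)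
    · have ha : y a ∈ span 𝕜 (range u) := by
        have e : y a = s • (y1 (r p) + y2 (r p)) := by
          rw [ey1, ey2, ← smul_add, smul_smul]
          have : y a + y b + (y a - y b) = (2 : 𝕜) • y a := by
            rw [two_smul]; abel
          rw [this, smul_smul]
          have : s * s * 2 = 1 := by rw [← hs2]; ring
          rw [this, one_smul]
        rw [e]
        exact smul_mem _ _ (add_mem (us1 (w1 _)) (us2 (w2 _)))
      have hbm : y b ∈ span 𝕜 (range u) := by
        have e : y b = s • (y1 (r p) - y2 (r p)) := by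
          rw [ey1, ey2, ← smul_sub, smul_smul]
          have : y a + y b - (y a - y b) = (2 : 𝕜) • y b := by
            rw [two_smul]; abel
          rw [this, smul_smul]
          have : s * s * 2 = 1 := by rw [← hs2]; ring
          rw [this, one_smul]
        rw [e]
        exact smul_mem _ _ (sub_mem (us1 (w1 _)) (us2 (w2 _)))
      rintro (i | i)
      · by_cases hi : i = r p
        · rw [hi]; exact ha
        · have := us1 (w1 i)
          rwa [ny1 i hi] at this
      · by_cases hi : i = r p
        · rw [hi]; exact hbm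
        · have := us2 (w2 i)
          rwa [ny2 i hi] at this

end Pool.Agent.R962.BA
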