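import Mathlib
import Pool.Agent.R268.Sobczyk

/-!
# One step of the construction of an extension of a minimal sequence
-/

set_option autoImplicit false

open Submodule Set Filter Topology

namespace Pool.Agent.R962.BA

variable {𝕜 : Type} [RCLike 𝕜] {E : Type} [NormedAddCommGroup E] [NormedSpace 𝕜 E]

/-- Two members of a bounded sequence on which finitely many functionals nearly agree. -/
theorem exists_close {ι : Type} [Fintype ι] (g : ι → (E →L[𝕜] 𝕜)) (u : ℕ → E) (R : ℝ)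
    (hu : ∀ n, ‖u n‖ ≤ R) (ε : ℝ) (hε : 0 < ε) :
    ∃ k l, k ≠ l ∧ ∀ i, ‖g i (u k - u l)‖ ≤ ε := by
  let Θ : E →L[𝕜] (ι → 𝕜) := ContinuousLinearMap.pi g
  have hb : Bornology.IsBounded (Set.range (fun n => Θ (u n))) := by
    rw [isBounded_iff_forall_norm_le]
    refine ⟨‖Θ‖ * R, ?_⟩
    rintro _ ⟨n, rfl⟩
    exact (Θ.le_opNorm _).trans (mul_le_mul_of_nonneg_left (hu n) (norm_nonneg _))
  obtain ⟨a, -, φ, hφ, hlim⟩ := tendsto_subseq_of_bounded hb (fun n => Set.mem_range_self n)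
  obtain ⟨N, hN⟩ := (Metric.tendsto_atTop.mp hlim) (ε / 2) (by positivity)
  refine ⟨φ N, φ (N + 1), (hφ (Nat.lt_succ_self N)).ne, fun i => ?_⟩
  have h1 := hN N le_rfl
  have h2 := hN (N + 1) (Nat.le_succ N)
  have h3 : dist (Θ (u (φ N))) (Θ (u (φ (N + 1)))) < ε := by
    have := dist_triangle_right (Θ (u (φ N))) (Θ (u (φ (N + 1)))) a
    simp only [Function.comp_apply] at h1 h2
    linarith
  rw [dist_eq_norm, ← map_sub] at h3
  exact ((norm_le_pi_norm (Θ (u (φ N) - u (φ (N + 1)))) i).trans h3.le)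

/-- Removing the first coordinates of a vector. -/
noncomputable def corr (f : ℕ → (E →L[𝕜] 𝕜)) (x : ℕ → E) (N : ℕ) (y : E) : E :=
  y - ∑ m ∈ Finset.range N, f m y • x m

theorem corr_lt (f : ℕ → (E →L[𝕜] 𝕜)) (x : ℕ → E)
    (hfx : ∀ i j, f i (x j) = if i = j then 1 else 0) (N : ℕ) (y : E) (m : ℕ) (hm : m < N) :
    f m (corr f x N y) = 0 := by
  rw [corr, map_sub, map_sum]
  simp only [map_smul, hfx, smul_eq_mul, mul_ite, mul_one, mul_zero]
  rw [Finset.sum_ite_eq, if_pos (Finset.mem_range.2 hm), sub_self]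

theorem corr_ge (f : ℕ → (E →L[𝕜] 𝕜)) (x : ℕ → E)
    (hfx : ∀ i j, f i (x j) = if i = j then 1 else 0) (N : ℕ) (y : E) (m : ℕ) (hm : N ≤ m) :
    f m (corr f x N y) = f m y := by
  rw [corr, map_sub, map_sum]
  simp only [map_smul, hfx, smul_eq_mul, mul_ite, mul_one, mul_zero]
  rw [Finset.sum_ite_eq, if_neg (by rw [Finset.mem_range]; omega), sub_zero]

theorem corr_kill (X : Submodule 𝕜 E) (f : ℕ → (E →L[𝕜] 𝕜)) (x : ℕ → E) (hx : ∀ n, x n ∈ X)
    (N : ℕ) (y : E) (h : E →L[𝕜] 𝕜) (hh : ∀ v ∈ X, h v = 0) : h (corr f x N y) = h y := by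
  rw [corr, map_sub, map_sum]
  have : ∑ m ∈ Finset.range N, h (f m y • x m) = 0 :=
    Finset.sum_eq_zero fun m _ => by rw [map_smul, hh _ (hx m), smul_zero]
  rw [this, sub_zero]

theorem corr_mem (X : Submodule 𝕜 E) (f : ℕ → (E →L[𝕜] 𝕜)) (x : ℕ → E) (hx : ∀ n, x n ∈ X)
    (N : ℕ) (y : E) : y - corr f x N y ∈ X := by
  rw [corr, sub_sub_cancel]
  exact sum_mem fun m _ => smul_mem _ _ (hx m)

theorem corr_norm (f : ℕ → (E →L[𝕜] 𝕜)) (x : ℕ → E) (N : ℕ) (y : E) (δ : ℝ)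
    (hδ : ∀ m < N, ‖f m y‖ ≤ δ) :
    ‖y - corr f x N y‖ ≤ δ * ∑ m ∈ Finset.range N, ‖x m‖ := by
  rw [corr, sub_sub_cancel, Finset.mul_sum]
  refine (norm_sum_le _ _).trans (Finset.sum_le_sum fun m hm => ?_)
  rw [norm_smul]
  exact mul_le_mul_of_nonneg_right (hδ m (Finset.mem_range.1 hm)) (norm_nonneg _)

/-- The quotient by the sum of `X` and a finite dimensional space is infinite dimensional. -/
theorem infinite_quotient (X F : Submodule 𝕜 E) [FiniteDimensional 𝕜 F]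
    (hinf : ¬ FiniteDimensional 𝕜 (E ⧸ X)) : ¬ FiniteDimensional 𝕜 (E ⧸ (X ⊔ F)) := by
  intro hfin
  apply hinf
  have hmap : (X ⊔ F).map X.mkQ = F.map X.mkQ := by
    rw [Submodule.map_sup, Submodule.mkQ_map_self, bot_sup_eq]
  have h1 : Module.Finite 𝕜 ((E ⧸ X) ⧸ (X ⊔ F).map X.mkQ) :=
    Module.Finite.equiv (quotientQuotientEquivQuotient X (X ⊔ F) le_sup_left).symm
  have h2 : Module.Finite 𝕜 ((X ⊔ F).map X.mkQ) := by
    rw [hmap]; infer_instance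
  exact Module.Finite.of_submodule_quotient ((X ⊔ F).map X.mkQ)

theorem good_step (X : Submodule 𝕜 E) (hX : IsClosed (X : Set E))
    (hinf : ¬ FiniteDimensional 𝕜 (E ⧸ X)) (f : ℕ → (E →L[𝕜] 𝕜)) (x : ℕ → E)
    (hx : ∀ n, x n ∈ X) (hfx : ∀ i j, f i (x j) = if i = j then 1 else 0)
    (n : ℕ) (y : ℕ → E) (h : ℕ → (E →L[𝕜] 𝕜))
    (hbio : ∀ i < n, ∀ j < n, h i (y j) = if i = j then 1 else 0)
    (hhX : ∀ i < n, ∀ v ∈ X, h i v = 0) (N : ℕ) :
    ∃ (y' : E) (h' : E →L[𝕜] 𝕜), ‖y'‖ ≤ 9 ∧ ‖h'‖ ≤ 1 ∧ h' y' = 1 ∧ (∀ v ∈ X, h' v = 0) ∧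
      (∀ j < n, h' (y j) = 0) ∧ (∀ i < n, h i y' = 0) ∧ ∀ m < N, f m y' = 0 := by
  classical
  set F : Submodule 𝕜 E := span 𝕜 (y '' {j | j < n}) with hF
  have hFfin : FiniteDimensional 𝕜 F :=
    FiniteDimensional.span_of_finite 𝕜 ((Set.finite_lt_nat n).image y)
  set W : Submodule 𝕜 E := X ⊔ F with hW
  have hWc : IsClosed (W : Set E) := Submodule.isClosed_sup_finiteDimensional X F hX
  have hWinf : ¬ FiniteDimensional 𝕜 (E ⧸ W) := infinite_quotient X F hinf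
  obtain ⟨q, hq1, hq2⟩ := exists_seq_norm_le_one_le_norm_sub' (𝕜 := 𝕜) (c := (2 : 𝕜)) (R := 3)
    (by norm_num) (by norm_num) hWinf
  have hlift : ∀ k, ∃ u : E, W.mkQ u = q k ∧ ‖u‖ < ‖q k‖ + 1 := fun k =>
    Submodule.Quotient.norm_mk_lt (q k) one_pos
  choose u hu1 hu2 using hlift
  have hu : ∀ k, ‖u k‖ ≤ 4 := fun k => by linarith [hu2 k, hq1 k]
  set A : ℝ := ∑ j ∈ Finset.range n, ‖y j‖ with hA
  set B : ℝ := ∑ m ∈ Finset.range N, ‖x m‖ with hB
  set G : ℝ := ∑ m ∈ Finset.range N, ‖f m‖ with hG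
  have hA0 : 0 ≤ A := Finset.sum_nonneg fun _ _ => norm_nonneg _
  have hB0 : 0 ≤ B := Finset.sum_nonneg fun _ _ => norm_nonneg _
  have hG0 : 0 ≤ G := Finset.sum_nonneg fun _ _ => norm_nonneg _
  set ε : ℝ := 1 / (1 + A + (1 + G * A) * B) with hε
  have hden : 0 < 1 + A + (1 + G * A) * B := by positivity
  have hε0 : 0 < ε := by positivity
  obtain ⟨k, l, hkl, hclose⟩ := exists_close (ι := Fin N ⊕ Fin n)
    (Sum.elim (fun m => f m) (fun j => h j)) u 4 hu ε hε0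
  set y0 : E := u k - u l with hy0
  have hf0 : ∀ m < N, ‖f m y0‖ ≤ ε := fun m hm => hclose (Sum.inl ⟨m, hm⟩)
  have hh0 : ∀ i < n, ‖h i y0‖ ≤ ε := fun i hi => hclose (Sum.inr ⟨i, hi⟩)
  have hy0n : ‖y0‖ ≤ 8 := (norm_sub_le _ _).trans (by linarith [hu k, hu l])
  set y1 : E := y0 - ∑ j ∈ Finset.range n, h j y0 • y j with hy1
  have hd1 : ‖y0 - y1‖ ≤ ε * A := by
    rw [hy1, sub_sub_cancel, hA, Finset.mul_sum]
    refine (norm_sum_le _ _).trans (Finset.sum_le_sum fun j hj => ?_)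
    rw [norm_smul]
    exact mul_le_mul_of_nonneg_right (hh0 j (Finset.mem_range.1 hj)) (norm_nonneg _)
  have hhy1 : ∀ i < n, h i y1 = 0 := by
    intro i hi
    rw [hy1, map_sub, map_sum]
    have : ∑ j ∈ Finset.range n, h i (h j y0 • y j)
        = ∑ j ∈ Finset.range n, if i = j then h j y0 else 0 := by
      refine Finset.sum_congr rfl fun j hj => ?_
      rw [map_smul, hbio i hi j (Finset.mem_range.1 hj), smul_eq_mul]
      split_ifs <;> simp
    rw [this, Finset.sum_ite_eq, if_pos (Finset.mem_range.2 hi), sub_self]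
  have hf1 : ∀ m < N, ‖f m y1‖ ≤ ε * (1 + G * A) := by
    intro m hm
    have e : f m y1 = f m y0 - f m (y0 - y1) := by rw [← map_sub, sub_sub_cancel]
    rw [e]
    have h1 : ‖f m (y0 - y1)‖ ≤ G * (ε * A) := by
      refine ((f m).le_opNorm _).trans ?_
      refine mul_le_mul ?_ hd1 (norm_nonneg _) hG0
      exact Finset.single_le_sum (f := fun m => ‖f m‖) (fun _ _ => norm_nonneg _)
        (Finset.mem_range.2 hm)
    calc ‖f m y0 - f m (y0 - y1)‖ ≤ ‖f m y0‖ + ‖f m (y0 - y1)‖ := norm_sub_le _ _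
      _ ≤ ε + G * (ε * A) := add_le_add (hf0 m hm) h1
      _ = ε * (1 + G * A) := by ring
  set y2 : E := corr f x N y1 with hy2
  have hd2 : ‖y1 - y2‖ ≤ ε * (1 + G * A) * B := corr_norm f x N y1 _ hf1
  have hy2n : ‖y2‖ ≤ 9 := by
    have e : y2 = y0 - (y0 - y1) - (y1 - y2) := by abel
    have e2 : ε * (1 + A + (1 + G * A) * B) = 1 := by
      rw [hε]; field_simp
    have h1 : ‖y2‖ ≤ ‖y0‖ + ‖y0 - y1‖ + ‖y1 - y2‖ := by
      calc ‖y2‖ = ‖y0 - (y0 - y1) - (y1 - y2)‖ := by rw [← e]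
        _ ≤ ‖y0 - (y0 - y1)‖ + ‖y1 - y2‖ := norm_sub_le _ _
        _ ≤ _ := by gcongr; exact norm_sub_le _ _
    nlinarith
  have hmem : y0 - y2 ∈ W := by
    have e : y0 - y2 = (y0 - y1) + (y1 - y2) := by abel
    rw [e]
    refine add_mem ?_ (mem_sup_left (corr_mem X f x hx N y1))
    rw [hy1, sub_sub_cancel]
    refine sum_mem fun j hj => smul_mem _ _ (mem_sup_right (subset_span ?_))
    exact ⟨j, Finset.mem_range.1 hj, rfl⟩
  have hnorm : 1 ≤ ‖W.mkQ y2‖ := by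
    have e : W.mkQ y2 = q k - q l := by
      rw [← hu1 k, ← hu1 l, ← map_sub]
      have : W.mkQ (y0 - y2) = 0 := by
        rw [Submodule.mkQ_apply]
        exact (Submodule.Quotient.mk_eq_zero W).2 hmem
      rw [map_sub, sub_eq_zero] at this
      exact this.symm
    rw [e]
    exact hq2 hkl
  obtain ⟨φ, hφ1, hφ2⟩ := exists_dual_vector'' 𝕜 (W.mkQ y2)
  set c : 𝕜 := ((‖W.mkQ y2‖ : ℝ) : 𝕜) with hc
  have hc0 : c ≠ 0 := by
    rw [hc, Ne, RCLike.ofReal_eq_zero]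
    linarith
  have hcn : ‖c⁻¹‖ ≤ 1 := by
    rw [norm_inv, hc, RCLike.norm_ofReal, abs_of_nonneg (norm_nonneg _)]
    exact inv_le_one_of_one_le₀ hnorm
  have hmk : ∀ v ∈ W, W.mkQ v = 0 := fun v hv => by
    rw [Submodule.mkQ_apply]
    exact (Submodule.Quotient.mk_eq_zero W).2 hv
  have hkill : ∀ v ∈ W, (c⁻¹ • φ.comp W.mkQL) v = 0 := by
    intro v hv
    change c⁻¹ * φ (W.mkQ v) = 0
    rw [hmk v hv, map_zero, mul_zero]
  refine ⟨y2, c⁻¹ • φ.comp W.mkQL, hy2n, ?_, ?_, fun v hv => hkill v (mem_sup_left hv),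
    fun j hj => hkill _ (mem_sup_right (subset_span ⟨j, hj, rfl⟩)), fun i hi => ?_,
    fun m hm => corr_lt f x hfx N y1 m hm⟩
  · rw [norm_smul]
    have h1 : ‖φ.comp W.mkQL‖ ≤ 1 := by
      refine ContinuousLinearMap.opNorm_le_bound _ zero_le_one fun v => ?_
      change ‖φ (W.mkQ v)‖ ≤ 1 * ‖v‖
      refine (φ.le_opNorm _).trans ?_
      have h2 : ‖W.mkQ v‖ ≤ ‖v‖ := Submodule.Quotient.norm_mk_le W v
      exact mul_le_mul hφ1 h2 (norm_nonneg _) zero_le_one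
    nlinarith [norm_nonneg (c⁻¹), norm_nonneg (φ.comp W.mkQL)]
  · change c⁻¹ * φ (W.mkQ y2) = 1
    rw [hφ2, inv_mul_cancel₀ hc0]
  · rw [hy2, corr_kill X f x hx N y1 (h i) (hhX i hi), hhy1 i hi]

/-- A step adding a prescribed vector to the span. -/
theorem bad_step (X : Submodule 𝕜 E) (hX : IsClosed (X : Set E))
    (hinf : ¬ FiniteDimensional 𝕜 (E ⧸ X)) (f : ℕ → (E →L[𝕜] 𝕜)) (x : ℕ → E)
    (hx : ∀ n, x n ∈ X) (hfx : ∀ i j, f i (x j) = if i = j then 1 else 0)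
    (n : ℕ) (y : ℕ → E) (h : ℕ → (E →L[𝕜] 𝕜))
    (hbio : ∀ i < n, ∀ j < n, h i (y j) = if i = j then 1 else 0)
    (hhX : ∀ i < n, ∀ v ∈ X, h i v = 0) (d : E) :
    ∃ (y' : E) (h' : E →L[𝕜] 𝕜), h' y' = 1 ∧ (∀ v ∈ X, h' v = 0) ∧
      (∀ j < n, h' (y j) = 0) ∧ (∀ i < n, h i y' = 0) ∧
      ∃ c : 𝕜, d - c • y' ∈ X ⊔ span 𝕜 (y '' {j | j < n}) := by
  classical
  set F : Submodule 𝕜 E := span 𝕜 (y '' {j | j < n}) with hF
  have hFfin : FiniteDimensional 𝕜 F :=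
    FiniteDimensional.span_of_finite 𝕜 ((Set.finite_lt_nat n).image y)
  set W : Submodule 𝕜 E := X ⊔ F with hW
  have hWc : IsClosed (W : Set E) := Submodule.isClosed_sup_finiteDimensional X F hX
  by_cases hd : d ∈ W
  · obtain ⟨y', h', -, -, h3, h4, h5, h6, -⟩ :=
      good_step X hX hinf f x hx hfx n y h hbio hhX 0
    exact ⟨y', h', h3, h4, h5, h6, 0, by rwa [zero_smul, sub_zero]⟩
  · set y1 : E := d - ∑ j ∈ Finset.range n, h j d • y j with hy1
    have hmem : d - y1 ∈ W := by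
      rw [hy1, sub_sub_cancel]
      refine sum_mem fun j hj => smul_mem _ _ (mem_sup_right (subset_span ?_))
      exact ⟨j, Finset.mem_range.1 hj, rfl⟩
    have hy1W : y1 ∉ W := by
      intro hmem2
      apply hd
      have : d = (d - y1) + y1 := by abel
      rw [this]
      exact add_mem hmem hmem2
    have hhy1 : ∀ i < n, h i y1 = 0 := by
      intro i hi
      rw [hy1, map_sub, map_sum]
      have : ∑ j ∈ Finset.range n, h i (h j d • y j)
          = ∑ j ∈ Finset.range n, if i = j then h j d else 0 := by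
        refine Finset.sum_congr rfl fun j hj => ?_
        rw [map_smul, hbio i hi j (Finset.mem_range.1 hj), smul_eq_mul]
        split_ifs <;> simp
      rw [this, Finset.sum_ite_eq, if_pos (Finset.mem_range.2 hi), sub_self]
    obtain ⟨h', hk, h1⟩ := Pool.Agent.R268.Sobczyk.exists_functional W hWc y1 hy1W
    refine ⟨y1, h', h1, fun v hv => hk v (mem_sup_left hv),
      fun j hj => hk _ (mem_sup_right (subset_span ⟨j, hj, rfl⟩)), hhy1, 1, ?_⟩
    rwa [one_smul]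

end Pool.Agent.R962.BA
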