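import Mathlib
import Pool.Agent.R268.Sobczyk
import Pool.Agent.R962.BA.Step
import Pool.Agent.R962.BA.Mix

/-!
# The sequence of vectors and functionals
-/

set_option autoImplicit false

open Submodule Set Filter Topology

namespace Pool.Agent.R962.BA

variable {𝕜 : Type} [RCLike 𝕜] {E : Type} [NormedAddCommGroup E] [NormedSpace 𝕜 E]

theorem exists_system (X : Submodule 𝕜 E) (hX : IsClosed (X : Set E))
    (hinf : ¬ FiniteDimensional 𝕜 (E ⧸ X)) (f : ℕ → (E →L[𝕜] 𝕜))
    (hf0 : ∀ v, Tendsto (fun n => f n v) atTop (𝓝 0)) (x : ℕ → E)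
    (hx : ∀ n, x n ∈ X) (hfx : ∀ i j, f i (x j) = if i = j then 1 else 0) (d : ℕ → E) :
    ∃ (y : ℕ → E) (h : ℕ → (E →L[𝕜] 𝕜)) (N : ℕ → ℕ),
      (∀ i j, h i (y j) = if i = j then 1 else 0) ∧ (∀ i, ∀ v ∈ X, h i v = 0) ∧
      (∀ i, Even i → ‖y i‖ ≤ 9 ∧ ‖h i‖ ≤ 9) ∧ (∀ i, i < N i) ∧
      (∀ i m, N i ≤ m → ‖f m (y i)‖ * ‖h i‖ ≤ (1 / 2 : ℝ) ^ i) ∧
      (∀ i, ∀ j < i, ∀ m < N j, f m (y i) = 0) ∧
      (∀ i, ¬ Even i → ∀ m < N i, f m (y i) = 0) ∧
      (∀ k, d k ∈ X ⊔ span 𝕜 (range y)) := by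
  classical
  let Q : ℕ → (ℕ → E × (E →L[𝕜] 𝕜) × ℕ) → Prop := fun i s =>
    (∀ v ∈ X, (s i).2.1 v = 0) ∧ (Even i → ‖(s i).1‖ ≤ 9 ∧ ‖(s i).2.1‖ ≤ 9) ∧
    i < (s i).2.2 ∧ (∀ m, (s i).2.2 ≤ m → ‖f m (s i).1‖ * ‖(s i).2.1‖ ≤ (1 / 2 : ℝ) ^ i) ∧
    (∀ j < i, ∀ m < (s j).2.2, f m (s i).1 = 0) ∧
    (¬ Even i → ∀ m < (s i).2.2, f m (s i).1 = 0) ∧
    (¬ Even i → ∃ c : 𝕜, d (i / 2) - c • (s i).1 ∈ X ⊔ span 𝕜 ((fun j => (s j).1) '' {j | j < i}))
  have hQ : ∀ i s t, (∀ k, k ≤ i → s k = t k) → Q i s → Q i t := by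
    intro i s t hst hq
    obtain ⟨h1, h2, h3, h4, h5, h6, h7⟩ := hq
    have e := hst i le_rfl
    have e2 : (fun j => (s j).1) '' {j | j < i} = (fun j => (t j).1) '' {j | j < i} := by
      apply Set.image_congr
      intro j hj
      rw [hst j (le_of_lt hj)]
    rw [e] at h1 h2 h3 h4 h6 h7
    rw [e2] at h7
    refine ⟨h1, h2, h3, h4, fun j hj m hm => ?_, h6, h7⟩
    rw [← hst j hj.le] at hm
    have := h5 j hj m hm
    rwa [e] at this
  let P : ℕ → (ℕ → E × (E →L[𝕜] 𝕜) × ℕ) → Prop := fun n s =>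
    (∀ i < n, ∀ j < n, (s i).2.1 (s j).1 = if i = j then 1 else 0) ∧ ∀ i < n, Q i s
  have hP : ∀ n s t, (∀ k, k < n → s k = t k) → P n s → P n t := by
    intro n s t hst hp
    refine ⟨fun i hi j hj => ?_, fun i hi => hQ i s t (fun k hk => hst k (by omega)) (hp.2 i hi)⟩
    rw [← hst i hi, ← hst j hj]
    exact hp.1 i hi j hj
  have : Nonempty (E × (E →L[𝕜] 𝕜) × ℕ) := ⟨(0, 0, 0)⟩
  obtain ⟨s, hs⟩ := Pool.Agent.R268.Sobczyk.exists_seq_of_step P hP
    (fun s => ⟨fun i hi => absurd hi (Nat.not_lt_zero i), fun i hi => absurd hi (Nat.not_lt_zero i)⟩)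
    (by
      intro n s hp
      -- the new element
      have hnew : ∃ a : E × (E →L[𝕜] 𝕜) × ℕ,
          a.2.1 a.1 = 1 ∧ (∀ j < n, a.2.1 (s j).1 = 0) ∧ (∀ i < n, (s i).2.1 a.1 = 0) ∧
          (∀ v ∈ X, a.2.1 v = 0) ∧ (Even n → ‖a.1‖ ≤ 9 ∧ ‖a.2.1‖ ≤ 9) ∧
          n < a.2.2 ∧ (∀ m, a.2.2 ≤ m → ‖f m a.1‖ * ‖a.2.1‖ ≤ (1 / 2 : ℝ) ^ n) ∧
          (∀ j < n, ∀ m < (s j).2.2, f m a.1 = 0) ∧
          (¬ Even n → ∀ m < a.2.2, f m a.1 = 0) ∧
          (¬ Even n → ∃ c : 𝕜, d (n / 2) - c • a.1 ∈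
            X ⊔ span 𝕜 ((fun j => (s j).1) '' {j | j < n})) := by
        have hhX : ∀ i < n, ∀ v ∈ X, (s i).2.1 v = 0 := fun i hi => (hp.2 i hi).1
        set N0 : ℕ := (Finset.range n).sup (fun j => (s j).2.2) with hN0
        have hN0' : ∀ j < n, (s j).2.2 ≤ N0 := fun j hj =>
          Finset.le_sup (f := fun j => (s j).2.2) (Finset.mem_range.2 hj)
        have hthr : ∀ (y' : E) (h' : E →L[𝕜] 𝕜), ∃ N1 : ℕ, ∀ m, N1 ≤ m →
            ‖f m y'‖ * ‖h'‖ ≤ (1 / 2 : ℝ) ^ n := by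
          intro y' h'
          have h1 : Tendsto (fun m => ‖f m y'‖ * ‖h'‖) atTop (𝓝 (0 * ‖h'‖)) := by
            have := (hf0 y').norm
            rw [norm_zero] at this
            exact this.mul_const _
          rw [zero_mul] at h1
          have h2 := h1.eventually (gt_mem_nhds (show (0 : ℝ) < (1 / 2) ^ n by positivity))
          obtain ⟨N1, hN1⟩ := eventually_atTop.1 h2
          exact ⟨N1, fun m hm => (hN1 m hm).le⟩
        by_cases hev : Even n
        · obtain ⟨y', h', g1, g2, g3, g4, g5, g6, g7⟩ := good_step X hX hinf f x hx hfx n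
            (fun j => (s j).1) (fun j => (s j).2.1) hp.1 hhX N0
          obtain ⟨N1, hN1⟩ := hthr y' h'
          refine ⟨(y', h', max N1 (n + 1)), g3, g5, g6, g4, fun _ => ⟨g1, by linarith⟩,
            (Nat.lt_succ_self n).trans_le (le_max_right _ _),
            fun m hm => hN1 m ((le_max_left _ _).trans hm),
            fun j hj m hm => g7 m (hm.trans_le (hN0' j hj)), fun h => absurd hev h,
            fun h => absurd hev h⟩
        · obtain ⟨y', h', g3, g4, g5, g6, c, hc⟩ := bad_step X hX hinf f x hx hfx n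
            (fun j => (s j).1) (fun j => (s j).2.1) hp.1 hhX (d (n / 2))
          obtain ⟨N1, hN1⟩ := hthr y' h'
          set N2 : ℕ := max N1 (max N0 (n + 1)) with hN2
          refine ⟨(corr f x N2 y', h', N2), ?_, g5, fun i hi => ?_, g4, fun h => absurd h hev,
            ?_, fun m hm => ?_, fun j hj m hm => ?_, fun _ m hm => corr_lt f x hfx N2 y' m hm,
            fun _ => ⟨c, ?_⟩⟩
          · change h' (corr f x N2 y') = 1
            rw [corr_kill X f x hx N2 y' h' g4, g3]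
          · change (s i).2.1 (corr f x N2 y') = 0
            rw [corr_kill X f x hx N2 y' _ (hhX i hi)]
            exact g6 i hi
          · exact (Nat.lt_succ_self n).trans_le ((le_max_right _ _).trans (le_max_right _ _))
          · change ‖f m (corr f x N2 y')‖ * ‖h'‖ ≤ _
            rw [corr_ge f x hfx N2 y' m hm]
            exact hN1 m ((le_max_left _ _).trans hm)
          · exact corr_lt f x hfx N2 y' m
              (hm.trans_le ((hN0' j hj).trans ((le_max_left _ _).trans (le_max_right _ _))))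
          · change d (n / 2) - c • corr f x N2 y' ∈ _
            have e : d (n / 2) - c • corr f x N2 y'
                = (d (n / 2) - c • y') + c • (y' - corr f x N2 y') := by
              rw [smul_sub]; abel
            rw [e]
            exact add_mem hc (mem_sup_left (smul_mem _ _ (corr_mem X f x hx N2 y')))
      obtain ⟨a, a1, a2, a3, a4, a5, a6, a7, a8, a9, a10⟩ := hnew
      refine ⟨a, ?_⟩
      set t := Function.update s n a with ht
      have tn : t n = a := Function.update_self ..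
      have tk : ∀ k, k < n → s k = t k := fun k hk => (Function.update_of_ne (by omega) ..).symm
      have hpt : P n t := hP n s t tk hp
      refine ⟨fun i hi j hj => ?_, fun i hi => ?_⟩
      · rcases Nat.lt_succ_iff_lt_or_eq.1 hi with hi' | rfl
        · rcases Nat.lt_succ_iff_lt_or_eq.1 hj with hj' | rfl
          · exact hpt.1 i hi' j hj'
          · rw [if_neg (by omega), tn, ← tk i hi']
            exact a3 i hi'
        · rcases Nat.lt_succ_iff_lt_or_eq.1 hj with hj' | rfl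
          · rw [if_neg (by omega), tn, ← tk j hj']
            exact a2 j hj'
          · rw [if_pos rfl, tn]
            exact a1
      · rcases Nat.lt_succ_iff_lt_or_eq.1 hi with hi' | rfl
        · exact hpt.2 i hi'
        · have e2 : (fun j => (s j).1) '' {j | j < i} = (fun j => (t j).1) '' {j | j < i} := by
            apply Set.image_congr
            intro j hj
            rw [tk j hj]
          rw [e2] at a10
          refine ⟨?_, ?_, ?_, ?_, ?_, ?_, ?_⟩
          · rw [tn]; exact a4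
          · rw [tn]; exact a5
          · rw [tn]; exact a6
          · rw [tn]; exact a7
          · intro j hj m hm
            rw [tn]
            rw [← tk j hj] at hm
            exact a8 j hj m hm
          · rw [tn]; exact a9
          · rw [tn]; exact a10)
  refine ⟨fun i => (s i).1, fun i => (s i).2.1, fun i => (s i).2.2, fun i j => ?_, fun i => ?_,
    fun i => ?_, fun i => ?_, fun i => ?_, fun i => ?_, fun i => ?_, fun k => ?_⟩
  · exact (hs (max i j + 1)).1 i (by omega) j (by omega)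
  · exact ((hs (i + 1)).2 i (by omega)).1
  · exact ((hs (i + 1)).2 i (by omega)).2.1
  · exact ((hs (i + 1)).2 i (by omega)).2.2.1
  · exact ((hs (i + 1)).2 i (by omega)).2.2.2.1
  · exact ((hs (i + 1)).2 i (by omega)).2.2.2.2.1
  · exact ((hs (i + 1)).2 i (by omega)).2.2.2.2.2.1
  · have hodd : ¬ Even (2 * k + 1) := by
      rw [Nat.not_even_iff_odd]; exact ⟨k, rfl⟩
    obtain ⟨c, hc⟩ := ((hs (2 * k + 1 + 1)).2 (2 * k + 1) (by omega)).2.2.2.2.2.2 hodd
    have e : (2 * k + 1) / 2 = k := by omega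
    rw [e] at hc
    have e2 : d k = (d k - c • (s (2 * k + 1)).1) + c • (s (2 * k + 1)).1 := by abel
    rw [e2]
    refine add_mem ?_ (smul_mem _ _ (mem_sup_right (subset_span ⟨2 * k + 1, rfl⟩)))
    refine (sup_le_sup_left (span_mono ?_) X) hc
    rintro _ ⟨j, -, rfl⟩
    exact ⟨j, rfl⟩

/-- The sum of the corrections is bounded. -/
theorem corrections_bound (f : ℕ → (E →L[𝕜] 𝕜)) (D : ℝ) (hD : ∀ n, ‖f n‖ ≤ D)
    (y : ℕ → E) (h : ℕ → (E →L[𝕜] 𝕜)) (N : ℕ → ℕ)
    (h3 : ∀ i, Even i → ‖y i‖ ≤ 9 ∧ ‖h i‖ ≤ 9) (h4 : ∀ i, i < N i)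
    (h5 : ∀ i m, N i ≤ m → ‖f m (y i)‖ * ‖h i‖ ≤ (1 / 2 : ℝ) ^ i)
    (h6 : ∀ i, ∀ j < i, ∀ m < N j, f m (y i) = 0)
    (h7 : ∀ i, ¬ Even i → ∀ m < N i, f m (y i) = 0) (n : ℕ) :
    ∑ m ∈ Finset.range (n + 1), ‖f n (y m)‖ * ‖h m‖ ≤ 2 + 81 * D := by
  classical
  have hD0 : 0 ≤ D := (norm_nonneg _).trans (hD 0)
  have hex : ∃ m, n < N m := ⟨n, h4 n⟩
  set M := Nat.find hex with hM
  have hM1 : n < N M := Nat.find_spec hex
  have hM2 : ∀ m < M, N m ≤ n := fun m hm => not_lt.1 (Nat.find_min hex hm)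
  have hb : ∀ m, ‖f n (y m)‖ * ‖h m‖ ≤ (1 / 2 : ℝ) ^ m + if m = M then 81 * D else 0 := by
    intro m
    rcases lt_trichotomy m M with hm | hm | hm
    · rw [if_neg hm.ne, add_zero]
      exact h5 m n (hM2 m hm)
    · rw [if_pos hm]
      by_cases hev : Even m
      · have h8 := h3 m hev
        have h9 : ‖f n (y m)‖ ≤ D * 9 :=
          ((f n).le_opNorm _).trans (mul_le_mul (hD n) h8.1 (norm_nonneg _) hD0)
        have h10 : ‖f n (y m)‖ * ‖h m‖ ≤ D * 9 * 9 :=
          mul_le_mul h9 h8.2 (norm_nonneg _) (by positivity)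
        have : (0 : ℝ) ≤ (1 / 2) ^ m := by positivity
        linarith
      · have h8 : f n (y m) = 0 := h7 m hev n (by rw [hm]; exact hM1)
        rw [h8, norm_zero, zero_mul]
        positivity
    · rw [if_neg hm.ne', add_zero, h6 m M hm n hM1, norm_zero, zero_mul]
      positivity
  refine (Finset.sum_le_sum fun m _ => hb m).trans ?_
  rw [Finset.sum_add_distrib]
  have s1 : ∑ m ∈ Finset.range (n + 1), (1 / 2 : ℝ) ^ m ≤ 2 := by
    have := sum_geometric_two_le (n + 1)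
    exact this
  have s2 : ∑ m ∈ Finset.range (n + 1), (if m = M then 81 * D else 0) ≤ 81 * D := by
    rw [Finset.sum_ite_eq']
    split_ifs
    · exact le_rfl
    · positivity
  linarith

end Pool.Agent.R962.BA
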