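import Mathlib
import Pool.Agent.R962.BA.Seq

/-!
# The extension theorem
-/

set_option autoImplicit false

open Submodule Set Filter Topology

namespace Pool.Agent.R962.BA

variable {𝕜 : Type} [RCLike 𝕜] {E : Type} [NormedAddCommGroup E] [NormedSpace 𝕜 E]

theorem eventually_zero (x : ℕ → E) (f : ℕ → (E →L[𝕜] 𝕜))
    (hfx : ∀ i j, f i (x j) = if i = j then 1 else 0) (w : E) (hw : w ∈ span 𝕜 (range x)) :
    ∀ᶠ n in atTop, f n w = 0 := by
  induction hw using Submodule.span_induction with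
  | mem x' hx =>
    obtain ⟨j, rfl⟩ := hx
    filter_upwards [eventually_gt_atTop j] with n hn
    rw [hfx, if_neg hn.ne']
  | zero => exact Eventually.of_forall fun n => map_zero _
  | add a b _ _ ha hb =>
    filter_upwards [ha, hb] with n h1 h2
    rw [map_add, h1, h2, add_zero]
  | smul c a _ ha =>
    filter_upwards [ha] with n h1
    rw [map_smul, h1, smul_zero]

theorem tendsto_closure (x : ℕ → E) (f : ℕ → (E →L[𝕜] 𝕜)) (D : ℝ) (hD : ∀ n, ‖f n‖ ≤ D)
    (hfx : ∀ i j, f i (x j) = if i = j then 1 else 0) (v : E)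
    (hv : v ∈ (span 𝕜 (range x)).topologicalClosure) :
    Tendsto (fun n => f n v) atTop (𝓝 0) := by
  have hD0 : 0 ≤ D := (norm_nonneg _).trans (hD 0)
  rw [Metric.tendsto_atTop]
  intro ε hε
  have hv' : v ∈ closure (span 𝕜 (range x) : Set E) := hv
  obtain ⟨w, hw, hvw⟩ := Metric.mem_closure_iff.1 hv' (ε / (D + 1)) (by positivity)
  obtain ⟨n₀, hn₀⟩ := eventually_atTop.1 (eventually_zero x f hfx w hw)
  refine ⟨n₀, fun n hn => ?_⟩
  rw [dist_zero_right]
  have e : f n v = f n (v - w) := by rw [map_sub, hn₀ n hn, sub_zero]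
  rw [e]
  rw [dist_eq_norm, lt_div_iff₀ (by positivity)] at hvw
  calc ‖f n (v - w)‖ ≤ ‖f n‖ * ‖v - w‖ := (f n).le_opNorm _
    _ ≤ D * ‖v - w‖ := mul_le_mul_of_nonneg_right (hD n) (norm_nonneg _)
    _ ≤ ‖v - w‖ * (D + 1) := by nlinarith [norm_nonneg (v - w)]
    _ < ε := hvw

/-- The conclusion of the extension theorem. -/
def Ext (𝕜 : Type) [RCLike 𝕜] {E : Type} [NormedAddCommGroup E] [NormedSpace 𝕜 E]
    (x : ℕ → E) : Prop :=
  ∃ (ι : Type) (_ : Countable ι) (y : ι → E) (C D : ℝ) (g : ℕ ⊕ ι → (E →L[𝕜] 𝕜)),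
        (∀ i j : ℕ ⊕ ι, (i = j → g i (Sum.elim x y j) = 1) ∧
            (i ≠ j → g i (Sum.elim x y j) = 0)) ∧
        (∀ i : ℕ ⊕ ι, ‖Sum.elim x y i‖ ≤ C ∧ ‖g i‖ ≤ D) ∧
        (Submodule.span 𝕜 (Set.range (Sum.elim x y))).topologicalClosure = ⊤

theorem ext_finite (x : ℕ → E) (C D : ℝ) (f : ℕ → (E →L[𝕜] 𝕜))
    (hfx : ∀ i j, f i (x j) = if i = j then 1 else 0) (hC : ∀ n, ‖x n‖ ≤ C)
    (hD : ∀ n, ‖f n‖ ≤ D)
    (hfin : FiniteDimensional 𝕜 (E ⧸ (span 𝕜 (range x)).topologicalClosure)) : Ext 𝕜 x := by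
  classical
  set X : Submodule 𝕜 E := (span 𝕜 (range x)).topologicalClosure with hX
  have hXc : IsClosed (X : Set E) := Submodule.isClosed_topologicalClosure _
  have hxX : ∀ n, x n ∈ X := fun n =>
    Submodule.le_topologicalClosure _ (subset_span (mem_range_self n))
  have hD0 : 0 ≤ D := (norm_nonneg _).trans (hD 0)
  let b := Module.finBasis 𝕜 (E ⧸ X)
  have hlift : ∀ j, ∃ y : E, X.mkQ y = b j := fun j => X.mkQ_surjective (b j)
  choose y hy using hlift
  let h : Fin (Module.finrank 𝕜 (E ⧸ X)) → (E →L[𝕜] 𝕜) := fun j =>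
    (LinearMap.toContinuousLinearMap (b.coord j)).comp X.mkQL
  have hh : ∀ j v, h j v = b.coord j (X.mkQ v) := fun j v => rfl
  have hhX : ∀ j, ∀ v ∈ X, h j v = 0 := by
    intro j v hv
    rw [hh]
    have : X.mkQ v = 0 := by
      rw [Submodule.mkQ_apply]
      exact (Submodule.Quotient.mk_eq_zero X).2 hv
    rw [this, map_zero]
  have hhy : ∀ i j, h i (y j) = if j = i then 1 else 0 := by
    intro i j
    rw [hh, hy, Module.Basis.coord_apply, Module.Basis.repr_self, Finsupp.single_apply]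
  let F : ℕ → (E →L[𝕜] 𝕜) := fun n => f n - ∑ j, f n (y j) • h j
  have hF : ∀ n v, F n v = f n v - ∑ j, f n (y j) * h j v := by
    intro n v
    change (f n - ∑ j, f n (y j) • h j) v = _
    rw [sub_apply, sum_apply]
    rfl
  have hFx : ∀ n k, F n (x k) = if n = k then 1 else 0 := by
    intro n k
    rw [hF, hfx]
    have : ∑ j, f n (y j) * h j (x k) = 0 :=
      Finset.sum_eq_zero fun j _ => by rw [hhX j _ (hxX k), mul_zero]
    rw [this, sub_zero]
  have hFy : ∀ n k, F n (y k) = 0 := by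
    intro n k
    rw [hF]
    simp only [hhy, mul_ite, mul_one, mul_zero]
    rw [Finset.sum_ite_eq, if_pos (Finset.mem_univ k), sub_self]
  refine ⟨Fin (Module.finrank 𝕜 (E ⧸ X)), inferInstance, y, max C (∑ j, ‖y j‖),
    max (D + ∑ j, D * ‖y j‖ * ‖h j‖) (∑ j, ‖h j‖), Sum.elim F h, ?_, ?_, ?_⟩
  · rintro (i | i) (j | j)
    · refine ⟨fun hij => ?_, fun hij => ?_⟩
      · change F i (x j) = 1
        rw [hFx, if_pos (Sum.inl.inj hij)]
      · change F i (x j) = 0
        rw [hFx, if_neg (fun h => hij (by rw [h]))]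
    · refine ⟨fun hij => absurd hij Sum.inl_ne_inr, fun _ => hFy i j⟩
    · refine ⟨fun hij => absurd hij Sum.inr_ne_inl, fun _ => hhX i _ (hxX j)⟩
    · refine ⟨fun hij => ?_, fun hij => ?_⟩
      · change h i (y j) = 1
        rw [hhy, if_pos (Sum.inr.inj hij).symm]
      · change h i (y j) = 0
        rw [hhy, if_neg (fun h => hij (by rw [h]))]
  · rintro (i | i)
    · refine ⟨(hC i).trans (le_max_left _ _), ?_⟩
      refine le_trans ?_ (le_max_left _ _)
      change ‖f i - ∑ j, f i (y j) • h j‖ ≤ _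
      refine (norm_sub_le _ _).trans (add_le_add (hD i) ?_)
      refine (norm_sum_le _ _).trans (Finset.sum_le_sum fun j _ => ?_)
      rw [norm_smul]
      refine mul_le_mul_of_nonneg_right ?_ (norm_nonneg _)
      exact ((f i).le_opNorm _).trans (mul_le_mul_of_nonneg_right (hD i) (norm_nonneg _))
    · refine ⟨le_trans ?_ (le_max_right _ _), le_trans ?_ (le_max_right _ _)⟩
      · exact Finset.single_le_sum (f := fun j => ‖y j‖) (fun _ _ => norm_nonneg _)
          (Finset.mem_univ i)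
      · exact Finset.single_le_sum (f := fun j => ‖h j‖) (fun _ _ => norm_nonneg _)
          (Finset.mem_univ i)
  · rw [eq_top_iff]
    intro v _
    have hsx : X ≤ (span 𝕜 (range (Sum.elim x y))).topologicalClosure := by
      apply Submodule.topologicalClosure_mono
      apply span_mono
      rintro _ ⟨n, rfl⟩
      exact ⟨Sum.inl n, rfl⟩
    have e : v = (v - ∑ j, h j v • y j) + ∑ j, h j v • y j := by abel
    rw [e]
    refine add_mem (hsx ?_) (sum_mem fun j _ => smul_mem _ _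
      (Submodule.le_topologicalClosure _ (subset_span ⟨Sum.inr j, rfl⟩)))
    rw [← Submodule.Quotient.mk_eq_zero X, ← Submodule.mkQ_apply, map_sub, map_sum, sub_eq_zero]
    have := b.sum_repr (X.mkQ v)
    rw [← this]
    refine Finset.sum_congr rfl fun j _ => ?_
    rw [map_smul, hy]
    rfl

theorem ext_infinite [TopologicalSpace.SeparableSpace E] (x : ℕ → E) (C D : ℝ)
    (f : ℕ → (E →L[𝕜] 𝕜))
    (hfx : ∀ i j, f i (x j) = if i = j then 1 else 0) (hC : ∀ n, ‖x n‖ ≤ C)
    (hD : ∀ n, ‖f n‖ ≤ D)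
    (hinf : ¬ FiniteDimensional 𝕜 (E ⧸ (span 𝕜 (range x)).topologicalClosure)) : Ext 𝕜 x := by
  classical
  set X : Submodule 𝕜 E := (span 𝕜 (range x)).topologicalClosure with hX
  have hXc : IsClosed (X : Set E) := Submodule.isClosed_topologicalClosure _
  have hxX : ∀ n, x n ∈ X := fun n =>
    Submodule.le_topologicalClosure _ (subset_span (mem_range_self n))
  have hD0 : 0 ≤ D := (norm_nonneg _).trans (hD 0)
  obtain ⟨S, hS1, hS2, hS3⟩ := Pool.Agent.R268.Sobczyk.null_correction X D f hD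
    (fun v hv => tendsto_closure x f D hD hfx v hv)
  have hSx : ∀ i j, S i (x j) = if i = j then 1 else 0 := by
    intro i j
    rw [hS1 i _ (hxX j), hfx]
  let d : ℕ → E := TopologicalSpace.denseSeq E
  obtain ⟨y, h, N, h1, h2, h3, h4, h5, h6, h7, h8⟩ :=
    exists_system X hXc hinf S hS3 x hxX hSx d
  let F : ℕ → (E →L[𝕜] 𝕜) := fun n => S n - ∑ m ∈ Finset.range (n + 1), S n (y m) • h m
  have hF : ∀ n v, F n v = S n v - ∑ m ∈ Finset.range (n + 1), S n (y m) * h m v := by
    intro n v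
    change (S n - ∑ m ∈ Finset.range (n + 1), S n (y m) • h m) v = _
    rw [sub_apply, sum_apply]
    rfl
  have hFx : ∀ n k, F n (x k) = if n = k then 1 else 0 := by
    intro n k
    rw [hF, hSx]
    have : ∑ m ∈ Finset.range (n + 1), S n (y m) * h m (x k) = 0 :=
      Finset.sum_eq_zero fun j _ => by rw [h2 j _ (hxX k), mul_zero]
    rw [this, sub_zero]
  have hFy : ∀ n k, F n (y k) = 0 := by
    intro n k
    rw [hF]
    simp only [h1, mul_ite, mul_one, mul_zero]
    rw [Finset.sum_ite_eq']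
    split_ifs with hk
    · rw [sub_self]
    · rw [sub_zero]
      rw [Finset.mem_range, not_lt] at hk
      exact h6 k n (by omega) n (h4 n)
  have hFn : ∀ n, ‖F n‖ ≤ 2 * D + (2 + 81 * (2 * D)) := by
    intro n
    change ‖S n - ∑ m ∈ Finset.range (n + 1), S n (y m) • h m‖ ≤ _
    refine (norm_sub_le _ _).trans (add_le_add (hS2 n) ?_)
    refine (norm_sum_le _ _).trans ?_
    simp only [norm_smul]
    exact corrections_bound S (2 * D) hS2 y h N h3 h4 h5 h6 h7 n
  -- the sizes of the blocks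
  have hq : ∀ k, ∃ q : ℕ, ‖y (2 * k + 1)‖ ≤ (3 + Real.sqrt 2 ^ (q + 1)) * 9 ∧
      ‖h (2 * k + 1)‖ ≤ (3 + Real.sqrt 2 ^ (q + 1)) * 9 := by
    intro k
    have h2' : (1 : ℝ) < Real.sqrt 2 := by
      rw [Real.lt_sqrt (by norm_num)]; norm_num
    obtain ⟨q, hq⟩ := pow_unbounded_of_one_lt (max ‖y (2 * k + 1)‖ ‖h (2 * k + 1)‖) h2'
    have h9 : Real.sqrt 2 ^ q ≤ Real.sqrt 2 ^ (q + 1) :=
      pow_le_pow_right₀ h2'.le (Nat.le_succ q)
    have h10 : 0 ≤ Real.sqrt 2 ^ (q + 1) := by positivity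
    refine ⟨q, ?_, ?_⟩
    · have := le_max_left ‖y (2 * k + 1)‖ ‖h (2 * k + 1)‖
      nlinarith
    · have := le_max_right ‖y (2 * k + 1)‖ ‖h (2 * k + 1)‖
      nlinarith
  choose q hq1 hq2 using hq
  let J : Type := Σ k : ℕ, {i : T (q k + 1) // i ≠ r (q k + 1)}
  have hJc : Countable J := inferInstanceAs (Countable (Σ k : ℕ, {i : T (q k + 1) // i ≠ r (q k + 1)}))
  have hJi : Infinite J := by
    refine Infinite.of_injective (fun k : ℕ => (⟨k, ⟨Sum.inr (r (q k)), Sum.inr_ne_inl⟩⟩ : J)) ?_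
    intro a b hab
    exact congrArg Sigma.fst hab
  obtain ⟨e⟩ : Nonempty (J ≃ ℕ) := nonempty_equiv_of_countable
  let σ : ∀ k : ℕ, T (q k + 1) → ℕ := fun k i =>
    if hi : i = r (q k + 1) then 2 * k + 1 else 2 * e ⟨k, ⟨i, hi⟩⟩
  have σ0 : ∀ k, σ k (r (q k + 1)) = 2 * k + 1 := fun k => dif_pos rfl
  have σ1 : ∀ k i (hi : i ≠ r (q k + 1)), σ k i = 2 * e ⟨k, ⟨i, hi⟩⟩ := fun k i hi => dif_neg hi
  have σinj : ∀ k i l j, σ k i = σ l j → (⟨k, i⟩ : Σ k : ℕ, T (q k + 1)) = ⟨l, j⟩ := by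
    intro k i l j hkl
    by_cases hi : i = r (q k + 1)
    · by_cases hj : j = r (q l + 1)
      · rw [hi, hj, σ0, σ0] at hkl
        have : k = l := by omega
        subst this
        rw [hi, hj]
      · rw [hi, σ0, σ1 l j hj] at hkl
        omega
    · by_cases hj : j = r (q l + 1)
      · rw [hj, σ0, σ1 k i hi] at hkl
        omega
      · rw [σ1 k i hi, σ1 l j hj] at hkl
        have h9 : e ⟨k, ⟨i, hi⟩⟩ = e ⟨l, ⟨j, hj⟩⟩ := by omega
        have h10 := e.injective h9
        have h11 : k = l := congrArg Sigma.fst h10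
        subst h11
        have h12 := eq_of_heq (Sigma.mk.inj h10).2
        have h13 : i = j := congrArg Subtype.val h12
        rw [h13]
  have σsurj : ∀ m, ∃ k i, σ k i = m := by
    intro m
    rcases Nat.even_or_odd' m with ⟨c, hc | hc⟩
    · obtain ⟨⟨k, ⟨i, hi⟩⟩, hki⟩ := e.surjective c
      exact ⟨k, i, by rw [σ1 k i hi, hki, hc]⟩
    · exact ⟨c, r (q c + 1), by rw [σ0, hc]⟩
  have hmix : ∀ k : ℕ, ∃ (u : T (q k + 1) → E) (v : T (q k + 1) → (E →L[𝕜] 𝕜)), Bio u v ∧
      (∀ j, ‖u j‖ ≤ 4 * 9 ∧ ‖v j‖ ≤ 4 * 9) ∧ (∀ j, u j ∈ span 𝕜 (range fun i => y (σ k i))) ∧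
      (∀ j, v j ∈ span 𝕜 (range fun i => h (σ k i))) ∧
      (∀ i, y (σ k i) ∈ span 𝕜 (range u)) := by
    intro k
    refine mix (q k + 1) (fun i => y (σ k i)) (fun i => h (σ k i)) ⟨fun i => ?_, fun i j hij => ?_⟩
      9 (by norm_num) (fun i hi => ?_) ?_ ?_
    · rw [h1, if_pos rfl]
    · rw [h1, if_neg]
      intro h9
      have := σinj k i k j h9
      exact hij (eq_of_heq (Sigma.mk.inj this).2)
    · rw [σ1 k i hi]
      exact h3 _ ⟨e ⟨k, ⟨i, hi⟩⟩, by ring⟩
    · rw [σ0]; exact hq1 k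
    · rw [σ0]; exact hq2 k
  choose u v m1 m2 m3 m4 m5 using hmix
  have hhX : ∀ k i, ∀ w ∈ X, v k i w = 0 := by
    intro k i w hw
    have key : ∀ φ ∈ span 𝕜 (range fun i => h (σ k i)), φ w = 0 := by
      intro φ hφ
      induction hφ using Submodule.span_induction with
      | mem x' hx => obtain ⟨j, rfl⟩ := hx; exact h2 _ w hw
      | zero => rfl
      | add a b _ _ ha hb => rw [add_apply, ha, hb, add_zero]
      | smul c a _ ha => rw [smul_apply, ha, smul_zero]
    exact key _ (m4 k i)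
  have hFu : ∀ n k i, F n (u k i) = 0 := by
    intro n k i
    have key : ∀ w ∈ span 𝕜 (range fun i => y (σ k i)), F n w = 0 := by
      intro w hw
      induction hw using Submodule.span_induction with
      | mem x' hx => obtain ⟨j, rfl⟩ := hx; exact hFy n _
      | zero => exact map_zero _
      | add a b _ _ ha hb => rw [map_add, ha, hb, add_zero]
      | smul c a _ ha => rw [map_smul, ha, smul_zero]
    exact key _ (m3 k i)
  refine ⟨Σ k : ℕ, T (q k + 1), inferInstance, fun j => u j.1 j.2, max C 36,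
    max (2 * D + (2 + 81 * (2 * D))) 36, Sum.elim F (fun j => v j.1 j.2), ?_, ?_, ?_⟩
  · rintro (i | ⟨k, i⟩) (j | ⟨l, j⟩)
    · refine ⟨fun hij => ?_, fun hij => ?_⟩
      · change F i (x j) = 1
        rw [hFx, if_pos (Sum.inl.inj hij)]
      · change F i (x j) = 0
        rw [hFx, if_neg (fun h => hij (by rw [h]))]
    · refine ⟨fun hij => absurd hij Sum.inl_ne_inr, fun _ => hFu i l j⟩
    · refine ⟨fun hij => absurd hij Sum.inr_ne_inl, fun _ => hhX k i _ (hxX j)⟩
    · refine ⟨fun hij => ?_, fun hij => ?_⟩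
      · change v k i (u l j) = 1
        have h9 := Sum.inr.inj hij
        have h10 : k = l := congrArg Sigma.fst h9
        subst h10
        have h11 := eq_of_heq (Sigma.mk.inj h9).2
        rw [h11]
        exact (m1 k).1 j
      · change v k i (u l j) = 0
        by_cases hkl : k = l
        · subst hkl
          exact (m1 k).2 i j (fun h => hij (by rw [h]))
        · refine span_kill (fun b => y (σ l b)) (fun a => h (σ k a)) (fun a b => ?_) _ (m4 k i) _
            (m3 l j)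
          rw [h1, if_neg]
          intro h9
          exact hkl (congrArg Sigma.fst (σinj k a l b h9))
  · rintro (i | ⟨k, i⟩)
    · exact ⟨(hC i).trans (le_max_left _ _), (hFn i).trans (le_max_left _ _)⟩
    · have := m2 k i
      refine ⟨le_trans ?_ (le_max_right _ _), le_trans ?_ (le_max_right _ _)⟩
      · change ‖u k i‖ ≤ 36
        linarith [this.1]
      · change ‖v k i‖ ≤ 36
        linarith [this.2]
  · set Z : Submodule 𝕜 E :=
      (span 𝕜 (range (Sum.elim x fun j : Σ k : ℕ, T (q k + 1) => u j.1 j.2))).topologicalClosure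
      with hZ
    have hZc : IsClosed (Z : Set E) := Submodule.isClosed_topologicalClosure _
    have hXZ : X ≤ Z := by
      apply Submodule.topologicalClosure_mono
      apply span_mono
      rintro _ ⟨n, rfl⟩
      exact ⟨Sum.inl n, rfl⟩
    have hyZ : span 𝕜 (range y) ≤ Z := by
      rw [span_le]
      rintro _ ⟨m, rfl⟩
      obtain ⟨k, i, rfl⟩ := σsurj m
      refine Submodule.le_topologicalClosure _ ?_
      refine (span_mono ?_) (m5 k i)
      rintro _ ⟨j, rfl⟩
      exact ⟨Sum.inr ⟨k, j⟩, rfl⟩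
    have hdZ : ∀ k, d k ∈ Z := fun k => (sup_le hXZ hyZ) (h8 k)
    rw [eq_top_iff]
    intro w _
    have hd : DenseRange d := TopologicalSpace.denseRange_denseSeq E
    have h9 : closure (range d) ⊆ (Z : Set E) :=
      closure_minimal (by rintro _ ⟨k, rfl⟩; exact hdZ k) hZc
    exact h9 (hd w)

theorem ext [TopologicalSpace.SeparableSpace E] (x : ℕ → E)
    (H : ∃ (C D : ℝ) (f : ℕ → (E →L[𝕜] 𝕜)),
        (∀ i j : ℕ, (i = j → f i (x j) = 1) ∧ (i ≠ j → f i (x j) = 0)) ∧
        (∀ n : ℕ, ‖x n‖ ≤ C ∧ ‖f n‖ ≤ D)) : Ext 𝕜 x := by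
  obtain ⟨C, D, f, h1, h2⟩ := H
  have hfx : ∀ i j, f i (x j) = if i = j then 1 else 0 := by
    intro i j
    split_ifs with hij
    · exact (h1 i j).1 hij
    · exact (h1 i j).2 hij
  by_cases hfin : FiniteDimensional 𝕜 (E ⧸ (span 𝕜 (range x)).topologicalClosure)
  · exact ext_finite x C D f hfx (fun n => (h2 n).1) (fun n => (h2 n).2) hfin
  · exact ext_infinite x C D f hfx (fun n => (h2 n).1) (fun n => (h2 n).2) hfin

end Pool.Agent.R962.BA
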